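import Pool.Agent.H27.CAL.Stmts2

open scoped BigOperators ENNReal Topology
open Filter

namespace CAL

section
variable {𝕜 : Type*} [RCLike 𝕜] {A : Type*} [PartialOrder A] [TopologicalSpace A] [CompactSpace A]
  {Y : Type*} [NormedAddCommGroup Y] [NormedSpace 𝕜 Y] {τ : TreeLev A}

/-- y ↦ the point with nodes f b • y and scalar coordinates 0 -/
noncomputable def lox_emb (f : C(A, 𝕜)) : Y →L[𝕜] BB 𝕜 A Y :=
  LinearMap.mkContinuous
    { toFun := fun y => mkB (fun b => f b • y, fun _ => 0) (‖f‖ * ‖y‖)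
        (fun b => by
          rw [norm_smul]
          exact mul_le_mul_of_nonneg_right (f.norm_coe_le_norm b) (norm_nonneg y))
        (fun γ => by rw [norm_zero]; positivity)
      map_add' := fun x y => toPt_inj (by
        rw [toPt_mkB, toPt_add, toPt_mkB, toPt_mkB]
        refine Prod.ext (funext fun b => ?_) (funext fun γ => ?_)
        · exact smul_add _ _ _
        · exact (add_zero _).symm)
      map_smul' := fun c x => toPt_inj (by
        rw [toPt_mkB, toPt_smul, RingHom.id_apply, toPt_mkB]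
        refine Prod.ext (funext fun b => ?_) (funext fun γ => ?_)
        · exact smul_comm _ _ _
        · exact (smul_zero c).symm) }
    ‖f‖ (fun y => norm_BB_le (by positivity)
      (fun b => by
        show ‖f b • y‖ ≤ _
        rw [norm_smul]
        exact mul_le_mul_of_nonneg_right (f.norm_coe_le_norm b) (norm_nonneg y))
      (fun γ => by
        show ‖(0 : 𝕜)‖ ≤ _
        rw [norm_zero]; positivity))

theorem lox_emb_nd (f : C(A, 𝕜)) (y : Y) (b : A) : (toPt (lox_emb f y : BB 𝕜 A Y)).1 b = f b • y :=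
  rfl

theorem lox_emb_norm (f : C(A, 𝕜)) (y : Y) : ‖(lox_emb f y : BB 𝕜 A Y)‖ ≤ ‖f‖ * ‖y‖ :=
  norm_BB_le (by positivity)
    (fun b => by
      rw [lox_emb_nd, norm_smul]
      exact mul_le_mul_of_nonneg_right (f.norm_coe_le_norm b) (norm_nonneg y))
    (fun γ => by
      show ‖(0 : 𝕜)‖ ≤ _
      rw [norm_zero]; positivity)

theorem cal_lox (D : Dat 𝕜 Y τ) (hc : ∀ a : A, IsClopen {b | a ≤ b}) (hval : VALStmt D hc)
    (hwnc : WNCStmt 𝕜 D.X D.X) : LOXStmt D hc := by
  intro hY m K hK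
  obtain ⟨y, hy1, hy2⟩ := hY.wn
  apply ContinuousLinearMap.opNorm_le_bound _ (by positivity)
  intro f
  rw [ContinuousMap.norm_le _ (by positivity)]
  intro a
  -- a level above all columns of m
  obtain ⟨N, hN⟩ : ∃ N, ∀ ab ∈ m.support, τ.lev ab.2 ≤ N :=
    ⟨m.support.sup (fun ab => τ.lev ab.2), fun ab h =>
      Finset.le_sup (f := fun ab : A × A => τ.lev ab.2) h⟩
  let L : Y →L[𝕜] D.X := (D.EX N).comp (lox_emb f)
  have hL : ∀ v, ‖L v‖ ≤ 2 * (‖f‖ * ‖v‖) := fun v =>
    (D.norm_EX_le N (lox_emb f v)).trans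
      (mul_le_mul_of_nonneg_left (lox_emb_norm f v) (by norm_num))
  have hnd : ∀ v b, τ.lev b ≤ N → D.nd b (L v) = f b • v := by
    intro v b hb
    show D.nd b (D.EX N (lox_emb f v)) = _
    rw [D.nd_EX, τ.ret_self hb]
    rfl
  have hR : ∀ v, D.nd a (D.RX m (L v)) = (RC τ hc m f) a • v := fun v =>
    hval.2 m f v N (L v) hN (fun b hb => hnd v b hb) a
  have hKt : Tendsto (fun k => ‖K (L (y k))‖) atTop (𝓝 0) := by
    have h1 := hwnc K hK (fun k => L (y k)) (2 * ‖f‖) (fun k => by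
      have := hL (y k)
      rw [hy1, mul_one] at this
      exact this) (fun g => hy2 (g.comp L))
    simpa using h1.norm
  have hle : ∀ k, ‖(RC τ hc m f) a‖ ≤ 2 * ‖D.RX m - K‖ * ‖f‖ + ‖K (L (y k))‖ := by
    intro k
    have h1 : ‖(RC τ hc m f) a‖ = ‖D.nd a (D.RX m (L (y k)))‖ := by
      rw [hR, norm_smul, hy1, mul_one]
    rw [h1]
    have h2 : D.RX m (L (y k)) = (D.RX m - K) (L (y k)) + K (L (y k)) := by simp
    calc ‖D.nd a (D.RX m (L (y k)))‖ ≤ ‖D.RX m (L (y k))‖ := D.norm_nd_le a _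
      _ ≤ ‖(D.RX m - K) (L (y k))‖ + ‖K (L (y k))‖ := by rw [h2]; exact norm_add_le _ _
      _ ≤ ‖D.RX m - K‖ * ‖L (y k)‖ + ‖K (L (y k))‖ := by
          gcongr
          exact (D.RX m - K).le_opNorm _
      _ ≤ ‖D.RX m - K‖ * (2 * (‖f‖ * 1)) + ‖K (L (y k))‖ := by
          gcongr
          have := hL (y k)
          rwa [hy1] at this
      _ = _ := by ring
  have hlim : Tendsto (fun k => 2 * ‖D.RX m - K‖ * ‖f‖ + ‖K (L (y k))‖) atTop
      (𝓝 (2 * ‖D.RX m - K‖ * ‖f‖ + 0)) := tendsto_const_nhds.add hKt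
  rw [add_zero] at hlim
  exact ge_of_tendsto' hlim hle

end

end CAL
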