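import Pool.Agent.H27.CAL.Stmts2

open scoped BigOperators ENNReal Topology
open Filter

namespace CAL

section
variable {𝕜 : Type*} [RCLike 𝕜] {A : Type*} [PartialOrder A] {Y : Type*} [NormedAddCommGroup Y]
  [NormedSpace 𝕜 Y] {τ : TreeLev A}

theorem cal_tails (D : Dat 𝕜 Y τ) (Z : Type*) [NormedAddCommGroup Z] [NormedSpace 𝕜 Z] :
    TAILSStmt D Z := by
  intro T M hM hnull e he
  by_contra hcon
  push Not at hcon
  have key : ∀ N : ℕ, ∃ n k m : ℕ, ∃ z : D.X, N ≤ n ∧ N ≤ k ∧ n < m ∧ D.InRan n m z ∧ ‖z‖ ≤ 4 ∧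
      e / 2 < ‖T k z‖ := by
    intro N
    obtain ⟨n, hn, k, hk, x, hx⟩ := hcon N
    have hx0 : x ≠ 0 := by
      rintro rfl
      simp at hx
    have hxn : 0 < ‖x‖ := norm_pos_iff.2 hx0
    set y : D.X := ((‖x‖⁻¹ : ℝ) : 𝕜) • x with hy
    have hyn : ‖y‖ = 1 := by
      rw [hy, norm_smul, RCLike.norm_ofReal, abs_of_pos (inv_pos.2 hxn)]
      exact inv_mul_cancel₀ hxn.ne'
    have hy2 : e < ‖T k (y - D.PX n y)‖ := by
      have h1 : y - D.PX n y = ((‖x‖⁻¹ : ℝ) : 𝕜) • (x - D.PX n x) := by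
        rw [hy, map_smul, smul_sub]
      rw [h1, map_smul, norm_smul, RCLike.norm_ofReal, abs_of_pos (inv_pos.2 hxn)]
      rw [inv_mul_eq_div, lt_div_iff₀ hxn]
      exact hx
    have ht : Tendsto (fun m => ‖T k (y - D.PX m y)‖) atTop (𝓝 0) := by
      have h1 : Tendsto (fun m => y - D.PX m y) atTop (𝓝 (y - y)) :=
        tendsto_const_nhds.sub (D.tendsto_PX y)
      rw [sub_self] at h1
      have h2 := ((T k).continuous.tendsto 0).comp h1
      rw [map_zero] at h2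
      simpa using h2.norm
    obtain ⟨m, hm1, hm2⟩ := ((ht.eventually (gt_mem_nhds (half_pos he))).and
      (eventually_gt_atTop n)).exists
    refine ⟨n, k, m, D.PX m y - D.PX n y, hn, hk, hm2, ⟨?_, ?_⟩, ?_, ?_⟩
    · rw [map_sub, D.PX_PX, D.PX_PX, min_eq_left hm2.le, min_self, sub_self]
    · rw [map_sub, D.PX_PX, D.PX_PX, min_self, min_eq_right hm2.le]
    · have h1 := D.norm_PX_le m y
      have h2 := D.norm_PX_le n y
      calc ‖D.PX m y - D.PX n y‖ ≤ ‖D.PX m y‖ + ‖D.PX n y‖ := norm_sub_le _ _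
        _ ≤ 2 * ‖y‖ + 2 * ‖y‖ := add_le_add h1 h2
        _ = 4 := by rw [hyn]; norm_num
    · have h1 : T k (y - D.PX n y) = T k (D.PX m y - D.PX n y) + T k (y - D.PX m y) := by
        rw [← map_add]
        congr 1
        abel
      have h2 : ‖T k (y - D.PX n y)‖ ≤ ‖T k (D.PX m y - D.PX n y)‖ + ‖T k (y - D.PX m y)‖ := by
        rw [h1]; exact norm_add_le _ _
      linarith
  choose n k m z h1 h2 h3 h4 h5 h6 using key
  let N : ℕ → ℕ := fun i => Nat.rec 0 (fun _ a => max (m a) (k a + 1)) i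
  have hN : ∀ i, N (i + 1) = max (m (N i)) (k (N i) + 1) := fun i => rfl
  have hb : D.Block (fun i => z (N i)) (fun i => n (N i)) (fun i => m (N i)) := by
    refine ⟨fun i => h4 _, fun i => h3 _, fun i => ?_, 4, fun i => h5 _⟩
    show m (N i) ≤ n (N (i + 1))
    refine le_trans ?_ (h1 (N (i + 1)))
    rw [hN]
    exact le_max_left _ _
  have hφ : StrictMono (fun i => k (N i)) := by
    apply strictMono_nat_of_lt_succ
    intro i
    show k (N i) < k (N (i + 1))
    refine lt_of_lt_of_le (Nat.lt_succ_self _) (le_trans ?_ (h2 (N (i + 1))))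
    rw [hN]
    exact le_max_right _ _
  have ht := hnull _ _ _ hb _ hφ
  have ht' : Tendsto (fun i => ‖T (k (N i)) (z (N i))‖) atTop (𝓝 0) := by simpa using ht.norm
  obtain ⟨i, hi⟩ := (ht'.eventually (gt_mem_nhds (half_pos he))).exists
  exact absurd (h6 (N i)) (not_lt.2 hi.le)

end

end CAL
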